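import Pool.Agent.K9h75.ASA.Final

/-!
# Domination in affine surface area does not imply domination in volume (all dimensions `n ≥ 3`)

`C₂` is the cross-polytope `{‖x‖₁ ≤ 1}` and `C₁` is a truncated cross-polytope
`{‖x‖₁ ≤ b, ‖x‖_∞ ≤ b - s}`.
-/

set_option autoImplicit false

open MeasureTheory Set
open scoped ENNReal

namespace Pool.Agent.Results.MP_8228af_gt.PolytopePair

/-- Euclidean space `ℝⁿ`. -/
abbrev E (n : ℕ) : Type := EuclideanSpace ℝ (Fin n)

/-- A convex body: a compact convex set with nonempty interior. -/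
structure IsConvexBody {n : ℕ} (C : Set (E n)) : Prop where
  compact : IsCompact C
  convex : Convex ℝ C
  interior_nonempty : (interior C).Nonempty

/-- `C` is centrally symmetric: it is symmetric about some point `p`. -/
def IsCentrallySymmetric {n : ℕ} (C : Set (E n)) : Prop :=
  ∃ p : E n, ∀ x : E n, p + x ∈ C → p - x ∈ C

/-- The surface area of a convex body in `ℝⁿ`: the `(n - 1)`-dimensional Hausdorff measure of its
boundary, normalised so that it agrees with Lebesgue measure on hyperplanes. -/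
noncomputable def surfaceArea {n : ℕ} (C : Set (E n)) : ℝ≥0∞ := μHE[n - 1] (frontier C)

theorem surfaceArea_image {m : ℕ} (A : E (m + 1) ≃ᵃ[ℝ] E (m + 1)) (C : Set (E (m + 1))) :
    surfaceArea (A '' C) = Pool.Agent.K9h75.ASA.MA A.linear (frontier C) := by
  unfold surfaceArea
  have h1 : ∀ S : Set (E (m + 1)), A '' S = (fun x => A 0 + x) '' (A.linear '' S) := by
    intro S
    rw [image_image]
    refine image_congr fun x _ => ?_
    have := A.map_vadd 0 x
    simp only [vadd_eq_add, add_zero] at this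
    rw [this, add_comm (A.linear x)]
  have h2 : frontier (A '' C) = A '' (frontier C) := by
    rw [h1, h1]
    have h3 : ∀ S : Set (E (m + 1)), (fun x => A 0 + x) '' (A.linear '' S) =
        (A.linear.toContinuousLinearEquiv.toHomeomorph.trans (Homeomorph.addLeft (A 0))) '' S := by
      intro S
      rw [image_image]
      rfl
    rw [h3, h3, Homeomorph.image_frontier]
  rw [h2, h1, (isometry_add_left (A 0)).euclideanHausdorffMeasure_image]
  rfl

/-- **The answer to the question is negative in every dimension `n ≥ 3`.**  There are centrally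
symmetric convex bodies `C₁, C₂ ⊂ ℝⁿ` such that `S(A(C₁)) ≤ S(A(C₂))` (both finite) for every
nonsingular affine map `A`, but `Vol C₁ > Vol C₂`. -/
theorem result (n : ℕ) (hn : 3 ≤ n) : ∃ C₁ C₂ : Set (E n),
    IsConvexBody C₁ ∧ IsConvexBody C₂ ∧ IsCentrallySymmetric C₁ ∧ IsCentrallySymmetric C₂ ∧
    (∀ A : E n ≃ᵃ[ℝ] E n,
      surfaceArea (A '' C₁) ≤ surfaceArea (A '' C₂) ∧ surfaceArea (A '' C₂) < ⊤) ∧
    volume C₂ < volume C₁ := by
  obtain ⟨m, rfl⟩ : ∃ m, n = m + 1 := ⟨n - 1, by omega⟩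
  obtain ⟨b, s, hs, hsb, hvol, hA⟩ := Pool.Agent.K9h75.ASA.main (m := m) (by omega)
  refine ⟨Pool.Agent.K9h75.ASA.tcp m b s, Pool.Agent.K9h75.ASA.cp m 1,
    ⟨Pool.Agent.K9h75.ASA.tcp_compact b s, Pool.Agent.K9h75.ASA.tcp_convex b s,
      ⟨0, Pool.Agent.K9h75.ASA.tcp_interior (hs.trans hsb) hsb⟩⟩,
    ⟨Pool.Agent.K9h75.ASA.cp_compact 1, Pool.Agent.K9h75.ASA.cp_convex 1,
      ⟨0, Pool.Agent.K9h75.ASA.cp_interior one_pos⟩⟩, ⟨0, fun x hx => ?_⟩, ⟨0, fun x hx => ?_⟩,
    fun A => ⟨?_, ?_⟩, hvol⟩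
  · rw [zero_add] at hx
    rw [zero_sub]
    exact Pool.Agent.K9h75.ASA.tcp_neg hx
  · rw [zero_add] at hx
    rw [zero_sub]
    exact Pool.Agent.K9h75.ASA.cp_neg hx
  · rw [surfaceArea_image, surfaceArea_image]
    exact hA A.linear
  · rw [surfaceArea_image]
    exact Pool.Agent.K9h75.ASA.MA_frontier_cp_lt_top A.linear

end Pool.Agent.Results.MP_8228af_gt.PolytopePair
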